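import Pool.Agent.Lib.MP_c5d73d_lc.F.Final

/-!
# Consistency of MA + not CH + the covering of `ω*` by nowhere dense P-sets

All the notions (`ZFC`, `MA`, `CH`, `Cov`) are written once, for an arbitrary collection with
`B`-valued membership and equality relations (`Str B U`), in
`Pool/Agent/Lib/MP_c5d73d_lc/F/Defs.lean` and `Pool/Agent/Lib/MP_100a6c_lc/Defs.lean`.
`VB B` is the Boolean-valued universe `V^B`; for `E : M → M → Prop` the structure `⟨E, Eq⟩` is the
ordinary (two-valued) structure `(M, E)` for the language of set theory.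
-/

universe u

namespace Pool.Agent.Results.MP_c5d73d_lc.Consistency

open Pool.Agent.Lib.MP_100a6c_lc
open Pool.Agent.Lib.MP_c5d73d_lc.F
open Pool.Agent.Lib.MP_c5d73d_lc.T (WeaklyCompact)

/-- **Theorem.** Let `κ` be a weakly compact cardinal.
(1) There is a nontrivial complete Boolean algebra `B` such that all axioms of ZFC, Martin's axiom,
the negation of the continuum hypothesis and the covering of `ω*` by nowhere dense P-sets have
Boolean value `⊤` in the Boolean-valued universe `V^B`.
(2) There is a model `(M, E)` of ZFC, Martin's axiom, the negation of the continuum hypothesis and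
the covering of `ω*` by nowhere dense P-sets. -/
theorem result (κ : Cardinal.{u}) (hκ : WeaklyCompact κ) :
    (∃ (B : Type u) (_ : CompleteBooleanAlgebra B), (⊥ : B) ≠ ⊤ ∧
      ZFC (VB B) = ⊤ ∧ MA (VB B) = ⊤ ∧ (CH (VB B))ᶜ = ⊤ ∧ Cov (VB B) = ⊤) ∧
    ∃ (M : Type (u + 1)) (E : M → M → Prop),
      ZFC (⟨E, Eq⟩ : Str Prop M) ∧ MA (⟨E, Eq⟩ : Str Prop M) ∧
        ¬ CH (⟨E, Eq⟩ : Str Prop M) ∧ Cov (⟨E, Eq⟩ : Str Prop M) := by
  obtain ⟨B, inst, h0, hZ, hM, hC, hV⟩ := boolean_model κ hκ
  exact ⟨⟨B, inst, h0, hZ, hM, by rw [hC, compl_bot], hV⟩, H80.two_valued h0 hZ hM hC hV⟩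

end Pool.Agent.Results.MP_c5d73d_lc.Consistency
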