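import Pool.Agent.Lib.MP_c5d73d_lc.Cover

open Cardinal Pool.Agent.Lib.MP_c5d73d_lc

namespace Pool.Agent.Results.MP_c5d73d_lc.OKPoints

/-- Martin's axiom and the failure of the continuum hypothesis imply that every `ℵ₁`-OK point
of the remainder lies in a nowhere dense closed P-set. -/
theorem result (hMA : MartinAxiom) (hCH : (ℵ₁ : Cardinal.{0}) < 𝔠)
    (x : OmegaStar) (hx : IsOK ℵ₁ x) :
    ∃ F : Set OmegaStar, x ∈ F ∧ IsClosed F ∧ IsNowhereDense F ∧ IsPSet F :=
  exists_cover_of_isOK hMA hCH hx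

end Pool.Agent.Results.MP_c5d73d_lc.OKPoints
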