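import Pool.Agent.Lib.MP_c5d73d_lc.Cover

open Cardinal Set Pool.Agent.Lib.MP_c5d73d_lc

namespace Pool.Agent.Results.MP_c5d73d_lc.PointSmall

/-- Martin's axiom: if `κ` is a regular uncountable cardinal and `O i` (`i : ι`) is a family of
open F-sigma subsets of the remainder with `κ ≤ #ι < 𝔠` such that every point is in fewer than
`κ` of them, then the points lying in the closure of every `O i` are all covered by a single
nowhere dense closed P-set. -/
theorem result (hMA : MartinAxiom) (κ : Cardinal.{0}) (hκ : κ.IsRegular) (hκ0 : ℵ₀ < κ)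
    (ι : Type) (hι0 : κ ≤ #ι) (hι : #ι < 𝔠) (O : ι → Set OmegaStar)
    (hO : ∀ i, IsOpen (O i) ∧ ∃ C : ℕ → Set OmegaStar, (∀ n, IsClosed (C n)) ∧ O i = ⋃ n, C n)
    (hpc : ∀ x : OmegaStar, #{i | x ∈ O i} < κ) :
    ∃ F : Set OmegaStar, IsClosed F ∧ IsNowhereDense F ∧ IsPSet F ∧
      (⋂ i, closure (O i)) ⊆ F :=
  exists_cover' hMA hκ hκ0 hι0 hι O hO hpc

end Pool.Agent.Results.MP_c5d73d_lc.PointSmall
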